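import Pool.Agent.W559.Et.Stm4

/-!
# ET-MAIN: the construction for actions which are linear in etale coordinates
-/

set_option autoImplicit false

universe u

namespace Pool.Agent.W305.Et.Main

open Pool.Agent.W559.Et

theorem main (hf : FinStm.{u}) (h1 : Crit1Stm.{u}) (h2 : Crit2Stm.{u}) : MainStm.{u} := by
  intro k K _ _ _ γ h p M ω hG 𝒱 Kf 𝒜 W T _ B H hA hS hL hLp
  have hpp : ∀ x : K, (⇑(γ ^ p))^[p] x = x := by
    intro x
    have h3 := hG.g x
    rw [AlgHom.coe_pow, ← Function.iterate_mul]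
    exact h3
  refine hf k K γ h p M ω hG 𝒱 Kf 𝒜 W T B H hA hS ?_ ?_
  · intro hp t
    refine h1 k K γ p hG.pp hG.pk 1 ?_ (B t) (hA.g t) (hA.fr t) (hS t) ?_
    · intro x
      rw [pow_one]
      exact hp x
    · rw [pow_one]
      exact hL t
  · intro _ t
    have hR := h1 k K γ p hG.pp hG.pk p hpp (B t) (hA.g t) (hA.fr t) (hS t) (hLp t)
    exact ⟨hR, h2 k K γ p hG.pp hG.pk hG.g (B t) (hA.g t) (hA.fr t) hR (hL t)⟩

end Pool.Agent.W305.Et.Main
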